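import Pool.Agent.EVF.StmtsR

/-!
# Squad EVF, row MRL: the radical lemma for several forms
-/

set_option autoImplicit false

namespace Pool.Agent.EVF.H44

open MvPolynomial
open Helper5Frey (partRad)
open Pool.Agent.EVF

theorem PB_finite (H : ℕ) : (PB H).Finite := by
  apply ((Set.finite_Icc (-(H : ℤ)) H).prod (Set.finite_Icc (-(H : ℤ)) H)).subset
  rintro ⟨a, b⟩ ⟨-, h1, h2⟩
  exact ⟨⟨(abs_le.1 h1).1, (abs_le.1 h1).2⟩, ⟨(abs_le.1 h2).1, (abs_le.1 h2).2⟩⟩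

theorem PB_one_card : ((PB 1).ncard : ℝ) ≤ 9 := by
  have h1 : PB 1 ⊆ ((Finset.Icc (-1 : ℤ) 1 ×ˢ Finset.Icc (-1 : ℤ) 1 : Finset (ℤ × ℤ)) :
      Set (ℤ × ℤ)) := by
    rintro ⟨a, b⟩ ⟨-, h1, h2⟩
    have h1' : |a| ≤ 1 := by simpa using h1
    have h2' : |b| ≤ 1 := by simpa using h2
    rw [Finset.mem_coe, Finset.mem_product, Finset.mem_Icc, Finset.mem_Icc]
    exact ⟨⟨(abs_le.1 h1').1, (abs_le.1 h1').2⟩, ⟨(abs_le.1 h2').1, (abs_le.1 h2').2⟩⟩
  have h2 : (PB 1).ncard ≤ 9 := by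
    refine (Set.ncard_le_ncard h1 (Finset.finite_toSet _)).trans ?_
    rw [Set.ncard_coe_finset]
    decide
  exact_mod_cast h2

theorem partRad_anti {K K' : ℕ} (h : K ∣ K') (n : ℕ) : partRad K' n ≤ partRad K n := by
  unfold partRad
  apply Finset.prod_le_prod_of_subset_of_one_le'
  · intro p hp
    rw [Finset.mem_filter] at hp ⊢
    exact ⟨hp.1, fun h1 => hp.2 (h1.trans h)⟩
  · intro p hp _
    exact (Nat.prime_of_mem_primeFactors (Finset.mem_filter.1 hp).1).one_lt.le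

theorem partRad_prod (K : ℕ) {ι : Type} [DecidableEq ι] (s : Finset ι) (n : ι → ℕ)
    (h0 : ∀ i ∈ s, n i ≠ 0)
    (hd : ∀ i ∈ s, ∀ j ∈ s, i ≠ j → ∀ p : ℕ, p.Prime → p ∣ n i → p ∣ n j → p ∣ K) :
    partRad K (∏ i ∈ s, n i) = ∏ i ∈ s, partRad K (n i) := by
  unfold partRad
  rw [← Finset.prod_biUnion]
  · congr 1
    ext p
    rw [Finset.mem_filter, Finset.mem_biUnion, Nat.mem_primeFactors]
    constructor
    · rintro ⟨⟨hp, h1, h2⟩, h3⟩
      obtain ⟨i, hi, hi'⟩ := (Prime.dvd_finsetProd_iff hp.prime n).1 h1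
      exact ⟨i, hi, Finset.mem_filter.2 ⟨Nat.mem_primeFactors.2 ⟨hp, hi', h0 i hi⟩, h3⟩⟩
    · rintro ⟨i, hi, h1⟩
      obtain ⟨h2, h3⟩ := Finset.mem_filter.1 h1
      obtain ⟨hp, h4, -⟩ := Nat.mem_primeFactors.1 h2
      exact ⟨⟨hp, h4.trans (Finset.dvd_prod_of_mem n hi), Finset.prod_ne_zero_iff.2 h0⟩, h3⟩
  · intro i hi j hj hij
    rw [Function.onFun, Finset.disjoint_left]
    intro p hp hp'
    obtain ⟨h1, h2⟩ := Finset.mem_filter.1 hp
    obtain ⟨h3, -⟩ := Finset.mem_filter.1 hp'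
    obtain ⟨hp, h4, -⟩ := Nat.mem_primeFactors.1 h1
    exact h2 (hd i hi j hj hij p hp h4 (Nat.mem_primeFactors.1 h3).2.1)

theorem mrl (brl : BrlStmt) (rs2 : Rs2Stmt) : MrlStmt := by
  intro m φ d K hK hφ hne ε hε
  classical
  -- the numbers of RS2
  have h1 : ∀ i j : Fin m, ∃ R : ℕ, 1 ≤ R ∧ (i ≠ j → ∀ a b : ℤ, IsCoprime a b → ∀ p : ℕ, p.Prime →
      (p : ℤ) ∣ bv (φ i) a b → (p : ℤ) ∣ bv (φ j) a b → p ∣ R) := by
    intro i j
    by_cases hij : i = j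
    · exact ⟨1, le_rfl, fun h => absurd hij h⟩
    · obtain ⟨R, hR, hR'⟩ := rs2 (φ i) (φ j) (d i) (d j) (hφ i).1 (hφ j).1 (hφ i).2.1 (hφ j).2.1
        (hφ i).2.2 (hφ j).2.2 (hne i j hij)
      exact ⟨R, hR, fun _ => hR'⟩
  choose R hR1 hR2 using h1
  obtain ⟨K', hK'⟩ : ∃ K' : ℕ, K' = K * ∏ i, ∏ j, R i j := ⟨_, rfl⟩
  have hKK : K ∣ K' := ⟨_, hK'⟩
  have hRK : ∀ i j, R i j ∣ K' := by
    intro i j
    rw [hK']
    exact ((Finset.dvd_prod_of_mem (R i) (Finset.mem_univ j)).trans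
      (Finset.dvd_prod_of_mem (fun i => ∏ j, R i j) (Finset.mem_univ i))).mul_left K
  have hK1 : 1 ≤ K' := by
    rw [hK']
    apply Nat.pos_of_ne_zero
    apply mul_ne_zero (by omega)
    apply Finset.prod_ne_zero_iff.2
    intro i _
    apply Finset.prod_ne_zero_iff.2
    intro j _
    have := hR1 i j
    omega
  have hε' : 0 < ε / (m + 1) := by positivity
  have h2 : ∀ j, ∃ C η : ℝ, 0 < η ∧ ∀ H : ℕ, 1 ≤ H →
      ({x : ℤ × ℤ | x ∈ PB H ∧ (bv (φ j) x.1 x.2 = 0 ∨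
        (partRad K' (bv (φ j) x.1 x.2).natAbs : ℝ) ≤
          (H : ℝ) ^ (((min (d j) 4 : ℕ) : ℝ) - ε / (m + 1)))}.ncard : ℝ) ≤
            C * (H : ℝ) ^ (2 - η) := fun j =>
    brl (φ j) (d j) K' (hφ j).1 (hφ j).2.1 (hφ j).2.2 hK1 _ hε'
  choose C η hη hC using h2
  obtain ⟨η0, hη0, hη1⟩ : ∃ η0 : ℝ, 0 < η0 ∧ ∀ j, η0 ≤ η j := by
    rcases Nat.eq_zero_or_pos m with hm | hm
    · subst hm
      exact ⟨1, one_pos, fun j => j.elim0⟩
    · have : Nonempty (Fin m) := ⟨⟨0, hm⟩⟩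
      obtain ⟨j, hj⟩ := Finite.exists_min η
      exact ⟨η j, hη j, hj⟩
  refine ⟨9 + ∑ j, |C j|, η0, hη0, ?_⟩
  intro H hH
  have hsum0 : (0 : ℝ) ≤ ∑ j, |C j| := Finset.sum_nonneg fun j _ => abs_nonneg _
  rcases Nat.lt_or_ge 1 H with hH2 | hH2
  · -- `H ≥ 2`
    have hHr : (1 : ℝ) < H := by exact_mod_cast hH2
    have hsub : {x : ℤ × ℤ | x ∈ PB H ∧ ((∏ j, bv (φ j) x.1 x.2) = 0 ∨
        (partRad K (∏ j, bv (φ j) x.1 x.2).natAbs : ℝ) ≤
          (H : ℝ) ^ (((∑ j, min (d j) 4 : ℕ) : ℝ) - ε))} ⊆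
        ⋃ j, {x : ℤ × ℤ | x ∈ PB H ∧ (bv (φ j) x.1 x.2 = 0 ∨
          (partRad K' (bv (φ j) x.1 x.2).natAbs : ℝ) ≤
            (H : ℝ) ^ (((min (d j) 4 : ℕ) : ℝ) - ε / (m + 1)))} := by
      rintro ⟨a, b⟩ ⟨hx, h3⟩
      by_contra hcon
      rw [Set.mem_iUnion] at hcon
      push Not at hcon
      have h4 : ∀ j, bv (φ j) a b ≠ 0 ∧ (H : ℝ) ^ (((min (d j) 4 : ℕ) : ℝ) - ε / (m + 1)) <
          (partRad K' (bv (φ j) a b).natAbs : ℝ) := by
        intro j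
        have h5 := hcon j
        rw [Set.mem_ofPred_eq, not_and_or, not_or, not_le] at h5
        rcases h5 with h5 | h5
        · exact absurd hx h5
        · exact h5
      have h5 : (∏ j, bv (φ j) a b) ≠ 0 := Finset.prod_ne_zero_iff.2 fun j _ => (h4 j).1
      rcases h3 with h3 | h3
      · exact h5 h3
      · have h6 : (∏ j, bv (φ j) a b).natAbs = ∏ j, (bv (φ j) a b).natAbs :=
          map_prod Int.natAbsHom _ _
        have h7 : partRad K' (∏ j, (bv (φ j) a b).natAbs) =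
            ∏ j, partRad K' (bv (φ j) a b).natAbs := by
          apply partRad_prod
          · intro i _
            exact Int.natAbs_ne_zero.2 (h4 i).1
          · intro i _ j _ hij p hp h8 h9
            exact (hR2 i j hij a b hx.1 p hp (Int.natCast_dvd.2 h8) (Int.natCast_dvd.2 h9)).trans
              (hRK i j)
        have h8 : (H : ℝ) ^ (((∑ j, min (d j) 4 : ℕ) : ℝ) - m * (ε / (m + 1))) ≤
            (partRad K' (∏ j, (bv (φ j) a b).natAbs) : ℝ) := by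
          rw [h7, Nat.cast_prod]
          have h9 : (H : ℝ) ^ (((∑ j, min (d j) 4 : ℕ) : ℝ) - m * (ε / (m + 1))) =
              ∏ j : Fin m, (H : ℝ) ^ (((min (d j) 4 : ℕ) : ℝ) - ε / (m + 1)) := by
            rw [← Real.rpow_sum_of_pos (by linarith), Finset.sum_sub_distrib, Nat.cast_sum,
              Finset.sum_const, Finset.card_univ, Fintype.card_fin, nsmul_eq_mul]
          rw [h9]
          apply Finset.prod_le_prod
          · intro j _
            positivity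
          · intro j _
            exact (h4 j).2.le
        have h9 : (partRad K' (∏ j, (bv (φ j) a b).natAbs) : ℝ) ≤
            (partRad K (∏ j, bv (φ j) a b).natAbs : ℝ) := by
          rw [h6]
          exact_mod_cast partRad_anti hKK _
        have h10 := (h8.trans h9).trans h3
        rw [Real.rpow_le_rpow_left_iff hHr] at h10
        have h11 : (m : ℝ) * (ε / (m + 1)) < ε := by
          rw [mul_div_assoc', div_lt_iff₀ (by positivity)]
          nlinarith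
        linarith
    have hfin : ∀ j, ({x : ℤ × ℤ | x ∈ PB H ∧ (bv (φ j) x.1 x.2 = 0 ∨
          (partRad K' (bv (φ j) x.1 x.2).natAbs : ℝ) ≤
            (H : ℝ) ^ (((min (d j) 4 : ℕ) : ℝ) - ε / (m + 1)))}).Finite := fun j =>
      (PB_finite H).subset fun x hx => hx.1
    have h3 := Set.ncard_le_ncard hsub (Set.finite_iUnion hfin)
    have h4 := h3.trans (Set.ncard_iUnion_le_of_fintype _)
    have h5 : ∀ j, C j * (H : ℝ) ^ (2 - η j) ≤ |C j| * (H : ℝ) ^ (2 - η0) := by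
      intro j
      apply mul_le_mul (le_abs_self _) _ (by positivity) (abs_nonneg _)
      exact Real.rpow_le_rpow_of_exponent_le hHr.le (by linarith [hη1 j])
    have h6 : (0 : ℝ) ≤ (H : ℝ) ^ (2 - η0) := by positivity
    calc _ ≤ ((∑ j, ({x : ℤ × ℤ | x ∈ PB H ∧ (bv (φ j) x.1 x.2 = 0 ∨
          (partRad K' (bv (φ j) x.1 x.2).natAbs : ℝ) ≤
            (H : ℝ) ^ (((min (d j) 4 : ℕ) : ℝ) - ε / (m + 1)))}).ncard : ℕ) : ℝ) := by
            exact_mod_cast h4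
      _ ≤ ∑ j, C j * (H : ℝ) ^ (2 - η j) := by
            rw [Nat.cast_sum]
            exact Finset.sum_le_sum fun j _ => hC j H hH
      _ ≤ ∑ j, |C j| * (H : ℝ) ^ (2 - η0) := Finset.sum_le_sum fun j _ => h5 j
      _ = (∑ j, |C j|) * (H : ℝ) ^ (2 - η0) := by rw [Finset.sum_mul]
      _ ≤ (9 + ∑ j, |C j|) * (H : ℝ) ^ (2 - η0) := by nlinarith
  · have hH1 : H = 1 := by omega
    subst hH1
    have h3 := Set.ncard_le_ncard (s := {x : ℤ × ℤ | x ∈ PB 1 ∧ ((∏ j, bv (φ j) x.1 x.2) = 0 ∨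
        (partRad K (∏ j, bv (φ j) x.1 x.2).natAbs : ℝ) ≤
          ((1 : ℕ) : ℝ) ^ (((∑ j, min (d j) 4 : ℕ) : ℝ) - ε))}) (fun x hx => hx.1) (PB_finite 1)
    have h4 := (Nat.cast_le (α := ℝ).2 h3).trans PB_one_card
    have h5 : ((1 : ℕ) : ℝ) ^ (2 - η0) = 1 := by rw [Nat.cast_one, Real.one_rpow]
    rw [h5, mul_one]
    linarith

end Pool.Agent.EVF.H44
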