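import Pool.Agent.EVF.StmtsF

/-!
# Squad EVF, row BND: values of polynomials on the box
-/

set_option autoImplicit false

namespace Pool.Agent.EVF.H44

open MvPolynomial
open Pool.Agent.EVF

theorem bnd : BndStmt := by
  intro k W ψ
  have hs : (0 : ℝ) ≤ ∑ a ∈ ψ.support, |((coeff a ψ : ℤ) : ℝ)| :=
    Finset.sum_nonneg fun a _ => abs_nonneg _
  refine ⟨1 + ∑ a ∈ ψ.support, |((coeff a ψ : ℤ) : ℝ)|, by linarith, ?_⟩
  intro E hE B hB t ht
  have hBr : (1 : ℝ) ≤ B := by exact_mod_cast hB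
  have hBE : (0 : ℝ) ≤ (B : ℝ) ^ E := by positivity
  rw [eval_eq', Int.cast_sum]
  calc |∑ a ∈ ψ.support, ((coeff a ψ * ∏ i, t i ^ a i : ℤ) : ℝ)|
      ≤ ∑ a ∈ ψ.support, |((coeff a ψ * ∏ i, t i ^ a i : ℤ) : ℝ)| :=
        Finset.abs_sum_le_sum_abs _ _
    _ ≤ ∑ a ∈ ψ.support, |((coeff a ψ : ℤ) : ℝ)| * (B : ℝ) ^ E := by
        apply Finset.sum_le_sum
        intro a ha
        rw [Int.cast_mul, abs_mul]
        apply mul_le_mul_of_nonneg_left _ (abs_nonneg _)
        rw [Int.cast_prod, Finset.abs_prod]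
        calc ∏ i, |((t i ^ a i : ℤ) : ℝ)| ≤ ∏ i, (B : ℝ) ^ (W i * a i) := by
              apply Finset.prod_le_prod
              · intro i _
                exact abs_nonneg _
              · intro i _
                rw [Int.cast_pow, abs_pow, pow_mul]
                apply pow_le_pow_left₀ (abs_nonneg _)
                have h1 := ht i
                exact_mod_cast h1
          _ = (B : ℝ) ^ (∑ i, W i * a i) := Finset.prod_pow_eq_pow_sum _ _ _
          _ ≤ (B : ℝ) ^ E := pow_le_pow_right₀ hBr (hE a ha)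
    _ = (∑ a ∈ ψ.support, |((coeff a ψ : ℤ) : ℝ)|) * (B : ℝ) ^ E := by rw [Finset.sum_mul]
    _ ≤ (1 + ∑ a ∈ ψ.support, |((coeff a ψ : ℤ) : ℝ)|) * (B : ℝ) ^ E := by nlinarith

end Pool.Agent.EVF.H44
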