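import Pool.Agent.EVF.StmtsG

/-!
# Squad EVF, row ZBA: bases over the integers
-/

set_option autoImplicit false

namespace Pool.Agent.EVF.H44

open MvPolynomial
open Pool.Agent.EVF

/-- an exponent -/
noncomputable def exZ (a b : ℕ) : Fin 2 →₀ ℕ := Finsupp.equivFunOnFinite.symm ![a, b]

theorem exZ_eq (e : Fin 2 →₀ ℕ) : exZ (e 0) (e 1) = e := by
  ext i
  fin_cases i
  · rfl
  · rfl

/-- the coefficients in a box -/
noncomputable def cofZ (r K : ℕ) : Vec r →ₗ[ℤ] (Fin r × Fin K × Fin K → ℤ) where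
  toFun := fun q t => coeff (exZ t.2.1 t.2.2) (q t.1)
  map_add' := fun q q' => by
    funext t
    exact coeff_add _ _ _
  map_smul' := fun c q => by
    funext t
    exact coeff_smul _ _ _

theorem zba : ZbaStmt := by
  intro r s hs
  obtain ⟨K, hK⟩ : ∃ K, K = s.deg + ∑ i, s.D i := ⟨_, rfl⟩
  refine ⟨(Fintype.card (Fin r × Fin K × Fin K) : ℝ), ?_⟩
  intro S hS
  have hinj : Function.Injective ((cofZ r K).domRestrict S) := by
    rw [injective_iff_map_eq_zero]
    intro q hq
    apply Subtype.ext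
    funext i
    ext e
    by_contra hne
    have hne' : coeff e ((q : Vec r) i) ≠ 0 := fun h => hne (by rw [h]; rfl)
    have h1 := hS q q.2 i e (mem_support_iff.2 hne')
    have hD : s.D i ≤ ∑ j, s.D j := Finset.single_le_sum (fun j _ => Nat.zero_le _)
      (Finset.mem_univ i)
    have hu : e 0 + 1 ≤ s.u * (e 0 + 1) := Nat.le_mul_of_pos_left _ hs.u_pos
    have hv : e 1 + 1 ≤ s.v * (e 1 + 1) := Nat.le_mul_of_pos_left _ hs.v_pos
    have h2 : e 0 < K := by omega
    have h3 : e 1 < K := by omega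
    have h4 : (cofZ r K) (q : Vec r) (i, ⟨e 0, h2⟩, ⟨e 1, h3⟩) = 0 := congrFun hq _
    have h5 : (cofZ r K) (q : Vec r) (i, ⟨e 0, h2⟩, ⟨e 1, h3⟩) =
        coeff (exZ (e 0) (e 1)) ((q : Vec r) i) := rfl
    rw [h5, exZ_eq] at h4
    exact hne' h4
  obtain ⟨n, b⟩ := Submodule.basisOfPid (Pi.basisFun ℤ (Fin r × Fin K × Fin K))
    (LinearMap.range ((cofZ r K).domRestrict S))
  let e := LinearEquiv.ofInjective ((cofZ r K).domRestrict S) hinj
  let b' := b.map e.symm
  have hli := b.linearIndependent.map' (Submodule.subtype _)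
    (Submodule.ker_subtype (LinearMap.range ((cofZ r K).domRestrict S)))
  have hn := hli.fintype_card_le_finrank
  rw [Fintype.card_fin, Module.finrank_fintype_fun_eq_card] at hn
  refine ⟨n, S.subtype ∘ b', by exact_mod_cast hn,
    b'.linearIndependent.map' S.subtype (Submodule.ker_subtype S), ?_⟩
  rw [Set.range_comp, Submodule.span_image, b'.span_eq, Submodule.map_top, Submodule.range_subtype]

end Pool.Agent.EVF.H44
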